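import Pool.Agent.J4H65.CP.Prom

/-!
# The complete set of a promise class
-/

set_option autoImplicit false

namespace Pool.Agent.J4H65.CP

open Pool.Agent.NPC Pool.Agent.H620R2.Gauge Pool.Agent.H620R2.Gauge.CC Pool.Agent.H660R2.NX
  Pool.Agent.J4H65.OP Pool.Agent.J4H65.OF

attribute [local irreducible] unpair

/-- the simulation of the verifiers -/
theorem cA_eq {A : Oracle} {V : List Bool → List Bool} {q : List Bool} {Q : Polynomial ℕ}
    (h0 : ∀ y t, acc A q y t → V y = [true])
    (h1 : ∀ y t m, Q.eval y.length ≤ t → Q.eval y.length ≤ m →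
      OP.sim A q y t m [] = some (V y)) {m c : ℕ} {x : List Bool}
    (hc : Q.eval (2 * m + 1 + x.length) ≤ c) : cA A q m c x = cnt V m x := by
  unfold cA cnt
  congr 1
  ext r
  simp only [Finset.mem_filter, Finset.mem_univ, true_and]
  constructor
  · exact h0 _ _
  · intro h
    refine ⟨Q.eval (pairBits (List.ofFn r) x).length, ?_⟩
    rw [← h]
    refine h1 _ _ _ (le_trans (eval_mono _ ?_) hc) le_rfl
    rw [Pool.Agent.H620R2.Gauge.length_pairBits, List.length_ofFn]

/-- the instances of a language in the class -/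
theorem exists_z {s : Spec} {A : Oracle} {L : Set (List Bool)} (hL : Cls s A L) :
    ∃ (q₀ q₁ : List Bool) (p T : Polynomial ℕ), ∀ n : ℕ,
      z4 q₀ q₁ n (p.eval n) (T.eval n) ∈ LamS s A ∧
      ∀ x : List Bool, x.length = n → (x ∈ L ↔
        s.Ψ (cA A q₀ (p.eval n) (T.eval n) x) (cA A q₁ (p.eval n) (T.eval n) x)
          (2 ^ p.eval n)) := by
  obtain ⟨V₀, V₁, p, ⟨M₀, hM₀⟩, ⟨M₁, hM₁⟩, hx⟩ := hL
  obtain ⟨q₀, Q₀, hq₀⟩ := exists_prog M₀
  obtain ⟨q₁, Q₁, hq₁⟩ := exists_prog M₁
  obtain ⟨k0, k1⟩ := hq₀ A V₀ hM₀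
  obtain ⟨l0, l1⟩ := hq₁ A V₁ hM₁
  refine ⟨q₀, q₁, p, Q₀.comp (2 * p + 1 + Polynomial.X) + Q₁.comp (2 * p + 1 + Polynomial.X),
    fun n => ?_⟩
  have hTe : (Q₀.comp (2 * p + 1 + Polynomial.X) + Q₁.comp (2 * p + 1 + Polynomial.X)).eval n =
      Q₀.eval (2 * p.eval n + 1 + n) + Q₁.eval (2 * p.eval n + 1 + n) := by
    simp [Polynomial.eval_comp]
  rw [hTe]
  have e0 : ∀ x : List Bool, x.length = n → cA A q₀ (p.eval n)
      (Q₀.eval (2 * p.eval n + 1 + n) + Q₁.eval (2 * p.eval n + 1 + n)) x =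
        cnt V₀ (p.eval x.length) x := by
    rintro x rfl
    exact cA_eq k0 k1 (by omega)
  have e1 : ∀ x : List Bool, x.length = n → cA A q₁ (p.eval n)
      (Q₀.eval (2 * p.eval n + 1 + n) + Q₁.eval (2 * p.eval n + 1 + n)) x =
        cnt V₁ (p.eval x.length) x := by
    rintro x rfl
    exact cA_eq l0 l1 (by omega)
  refine ⟨fun x hxn => ?_, fun x hxn => ?_⟩
  · rw [nn_z4] at hxn
    rw [side_false4, side_true4, mm_z4, cc_z4, e0 x hxn, e1 x hxn]
    have h1 := (hx x).1
    rw [hxn] at h1 ⊢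
    exact h1
  · rw [e0 x hxn, e1 x hxn]
    have h1 := (hx x).2
    rw [hxn] at h1 ⊢
    exact h1

theorem cls_empty (s : Spec) (hs : ∀ N, 0 < N → ¬ s.Ψ 0 N N) (A : Oracle) : Cls s A ∅ := by
  refine ⟨fun _ => [], fun _ => [true], 0, IsFP.of_poly (NPC.Poly.const []),
    IsFP.of_poly (NPC.Poly.const [true]), fun x => ?_⟩
  have e0 : cnt (fun _ => []) ((0 : Polynomial ℕ).eval x.length) x = 0 := by
    unfold cnt
    simp
  have e1 : cnt (fun _ => [true]) ((0 : Polynomial ℕ).eval x.length) x =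
      2 ^ (0 : Polynomial ℕ).eval x.length := by
    unfold cnt
    simp
  rw [e0, e1]
  refine ⟨s.dΦ _ (by positivity), ?_⟩
  simp only [Set.mem_empty_iff_false, false_iff]
  exact hs _ (by positivity)

/-- **A `p`-optimal proof system for `LamS s A` yields a complete set of the class.** -/
theorem complete_cls {s : Spec} {A : Oracle} {P : List Bool → List Bool}
    (hP : IsPOptimal A (LamS s A) P) :
    ∃ C : Set (List Bool), Cls s A C ∧ ∀ L : Set (List Bool), Cls s A L →
      ∃ F : List Bool → List Bool, IsFP A F ∧ ∀ x, x ∈ L ↔ F x ∈ C := by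
  obtain ⟨⟨⟨MP, hMP⟩, hrange⟩, hopt⟩ := hP
  have hFP : IsFP A P := ⟨MP, hMP⟩
  obtain ⟨p, hp⟩ := A2.out_bound MP
  have hp' : ∀ u, (P u).length ≤ p.eval u.length := fun u => hp A u _ (hMP u)
  have hmem : ∀ u, P u ∈ LamS s A := fun u => hrange ▸ ⟨u, rfl⟩
  have hmm : ∀ y : List Bool, mm (P (unpair y).1) ≤ p.eval y.length := fun y =>
    (mm_le _).trans ((hp' _).trans (eval_mono _ (unpair_fst_le y)))
  have hcnt : ∀ (i : Bool) (y : List Bool), (unpair y).2.length = nn (P (unpair y).1) →
      cnt (vp A P i) (p.eval y.length) y = 2 ^ (p.eval y.length - mm (P (unpair y).1)) *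
        cA A (side i (P (unpair y).1)) (mm (P (unpair y).1)) (cc (P (unpair y).1))
          (unpair y).2 := fun i y h => cnt_in h (hmm y)
  have hpow : ∀ y : List Bool, 2 ^ p.eval y.length =
      2 ^ (p.eval y.length - mm (P (unpair y).1)) * 2 ^ mm (P (unpair y).1) := fun y => by
    rw [← pow_add, Nat.sub_add_cancel (hmm y)]
  refine ⟨{y | s.Ψ (cnt (vp A P false) (p.eval y.length) y)
    (cnt (vp A P true) (p.eval y.length) y) (2 ^ p.eval y.length)},
    ⟨vp A P false, vp A P true, p, isFP_vp hFP false, isFP_vp hFP true,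
      fun y => ⟨?_, Iff.rfl⟩⟩, fun L hL => ?_⟩
  · by_cases hy : (unpair y).2.length = nn (P (unpair y).1)
    · rw [hcnt _ _ hy, hcnt _ _ hy, hpow y, s.scΦ _ _ _ _ (by positivity)]
      exact hmem _ _ hy
    · rw [cnt_out hy, cnt_out hy, if_neg (by simp), if_pos rfl]
      exact s.dΦ _ (by positivity)
  · obtain ⟨q₀, q₁, p₀, T, hz⟩ := exists_z hL
    set Qs : List Bool → List Bool := fun w =>
      if w.head? = some true then z4 q₀ q₁ w.tail.length (p₀.eval w.tail.length)
        (T.eval w.tail.length) else P w.tail with hQs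
    have hzz : NPC.Poly (fun w : List Bool => z4 q₀ q₁ w.tail.length (p₀.eval w.tail.length)
        (T.eval w.tail.length)) := by
      unfold z4
      have t1 : UPoly (fun w : List Bool => w.tail.length) :=
        UPoly.length (NPC.Poly.tail NPC.Poly.id)
      exact poly_pairBits (NPC.Poly.const q₀) (poly_pairBits (NPC.Poly.const q₁)
        (poly_pairBits (poly_rep t1) (poly_pairBits (poly_rep (UPoly.eval t1 p₀))
          (poly_rep (UPoly.eval t1 T)))))
    have hQF : IsFP A Qs := by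
      have h1 := IsFP.seq (F := fun w => P w.tail) (G := fun _ => [])
        (φ := fun q => q.1)
        (ψ := fun q => if q.1.head? = some true then z4 q₀ q₁ q.1.tail.length
          (p₀.eval q.1.tail.length) (T.eval q.1.tail.length) else q.2.1)
        (hFP.comp (IsFP.of_poly (NPC.Poly.tail NPC.Poly.id)))
        (IsFP.of_poly (NPC.Poly.const [])) (NPC.Poly.fst NPC.Poly.id)
        (NPC.Poly.ite (Poly.dec_eq (NPC.Poly.head? (NPC.Poly.fst NPC.Poly.id))
          (NPC.Poly.const (some true))) (hzz.comp (NPC.Poly.fst NPC.Poly.id))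
          (NPC.Poly.fst (NPC.Poly.snd NPC.Poly.id)))
      exact h1
    have hQR : Set.range Qs = LamS s A := by
      apply Set.Subset.antisymm
      · rintro _ ⟨w, rfl⟩
        simp only [hQs]
        split_ifs
        · exact (hz _).1
        · exact hmem _
      · intro z hz'
        rw [← hrange] at hz'
        obtain ⟨v, rfl⟩ := hz'
        exact ⟨false :: v, by simp [hQs]⟩
    obtain ⟨h, hh, hPh⟩ := hopt Qs ⟨hQF, hQR⟩
    have hPh' : ∀ x : List Bool, P (h (true :: x)) =
        z4 q₀ q₁ x.length (p₀.eval x.length) (T.eval x.length) := by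
      intro x
      rw [hPh]
      simp [hQs]
    refine ⟨fun x => pairBits (h (true :: x)) x, ?_, fun x => ?_⟩
    · exact IsFP.pair (hh.comp (IsFP.of_poly (NPC.Poly.cons (NPC.Poly.const true) NPC.Poly.id)))
        (IsFP.of_poly NPC.Poly.id)
    · rw [Set.mem_ofPred_eq]
      have hy : (unpair (pairBits (h (true :: x)) x)).2.length =
          nn (P (unpair (pairBits (h (true :: x)) x)).1) := by
        rw [unpair_pairBits]
        simp only
        rw [hPh', nn_z4]
      rw [hcnt _ _ hy, hcnt _ _ hy, hpow, s.scΨ _ _ _ _ (by positivity), unpair_pairBits]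
      simp only
      rw [hPh', mm_z4, cc_z4, side_false4, side_true4]
      exact (hz x.length).2 x rfl

end Pool.Agent.J4H65.CP
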