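import Pool.Agent.J4H65.CP.Pair

/-!
# Counting random strings
-/

set_option autoImplicit false

namespace Pool.Agent.J4H65.CP

open Classical in
/-- the number of the functions with a property of the list of the first `m` values -/
theorem card_take (m j : ℕ) (p : List Bool → Prop) :
    ((Finset.univ : Finset (Fin (m + j) → Bool)).filter
      (fun r => p ((List.ofFn r).take m))).card =
    2 ^ j * ((Finset.univ : Finset (Fin m → Bool)).filter (fun r => p (List.ofFn r))).card := by
  have h1 : ((Finset.univ : Finset (Fin (m + j) → Bool)).filter
      (fun r => p ((List.ofFn r).take m))).card =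
      (((Finset.univ : Finset (Fin m → Bool)).filter (fun r => p (List.ofFn r))) ×ˢ
        (Finset.univ : Finset (Fin j → Bool))).card := by
    symm
    refine Finset.card_bij' (fun q _ => Fin.append q.1 q.2)
      (fun r _ => (fun i => r (Fin.castAdd j i), fun i => r (Fin.natAdd m i))) ?_ ?_ ?_ ?_
    · rintro ⟨a, b⟩ h
      rw [Finset.mem_product, Finset.mem_filter] at h
      rw [Finset.mem_filter]
      refine ⟨Finset.mem_univ _, ?_⟩
      rw [List.ofFn_fin_append, List.take_append_of_le_length (by simp)]
      have h2 : (List.ofFn a).take m = List.ofFn a := List.take_of_length_le (by simp)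
      rw [h2]
      exact h.1.2
    · intro r h
      rw [Finset.mem_filter] at h
      rw [Finset.mem_product, Finset.mem_filter]
      refine ⟨⟨Finset.mem_univ _, ?_⟩, Finset.mem_univ _⟩
      have h3 : (List.ofFn r).take m = List.ofFn (fun i : Fin m => r (Fin.castAdd j i)) := by
        have h4 : r = Fin.append (fun i : Fin m => r (Fin.castAdd j i))
            (fun i : Fin j => r (Fin.natAdd m i)) := by
          rw [Fin.append_castAdd_natAdd]
        conv_lhs => rw [h4]
        rw [List.ofFn_fin_append, List.take_append_of_le_length (by simp)]
        exact List.take_of_length_le (by simp)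
      rw [← h3]
      exact h.2
    · rintro ⟨a, b⟩ _
      simp
    · intro r _
      simp [Fin.append_castAdd_natAdd]
  rw [h1, Finset.card_product, Finset.card_univ, Fintype.card_fun, Fintype.card_bool,
    Fintype.card_fin, mul_comm]

end Pool.Agent.J4H65.CP
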