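import Pool.Agent.H628R3.RO.Defs
import Pool.Agent.H620R2.Gauge.Defs

/-!
# Sparse oracles, and complete disjoint pairs
-/

set_option autoImplicit false

namespace Pool.Agent.J4H65.CP

open Pool.Agent.H628R3.RO

/-- For every `N`, at most `f N` of the first `N` strings are in `S`. -/
def Few (f : ℕ → ℕ) (S : Oracle) : Prop :=
  ∀ N : ℕ, ((Finset.range N).filter
    (fun i => S (Pool.Agent.H620R2.Gauge.str i) = true)).card ≤ f N

/-- Relative to the oracle `X`, some disjoint pair `(C, D)` of sets in `NP` is many-one complete: for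
every disjoint pair `(X₀, X₁)` of sets in `NP` some polynomial-time computable function `F` satisfies
`x ∈ X₀ ↔ F x ∈ C` and `x ∈ X₁ ↔ F x ∈ D` for all `x`. (So `C` and `D` are not empty.) -/
def HasCompletePair (X : Oracle) : Prop :=
  ∃ C D : Set (List Bool), IsPair (IsNP X) C D ∧
    ∀ X₀ X₁ : Set (List Bool), IsPair (IsNP X) X₀ X₁ →
      ∃ F : List Bool → List Bool, IsFP X F ∧ (∀ x, x ∈ X₀ ↔ F x ∈ C) ∧ ∀ x, x ∈ X₁ ↔ F x ∈ D

end Pool.Agent.J4H65.CP
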