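import Pool.Agent.J4H65.CP.Pair
import Pool.Agent.J4H65.OF.Sharp
import Pool.Agent.J4H25.NPK.Main

/-!
# Translation of oracles
-/

set_option autoImplicit false

namespace Pool.Agent.J4H65.CP

open Pool.Agent.NPC Pool.Agent.H620R2.Gauge Pool.Agent.H620R2.Gauge.CC Pool.Agent.H660R2.NX
  Pool.Agent.J4H65.OP Pool.Agent.J4H65.OF

open Pool.Agent.J4H63.ESY (join)

/-- replacement of the questions -/
def rep (φ : List Bool → List Bool) (r : List Bool) : List Bool :=
  if r.head? = some false then false :: φ r.tail else r

/-- `A = X ∘ φ`: every function computable relative to `A` is computable relative to `X` -/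
theorem isFP_trans {A X : Oracle} {φ : List Bool → List Bool} (hφ : NPC.Poly φ)
    (h : ∀ y, A y = X (φ y)) {F : List Bool → List Bool} (hF : IsFP A F) : IsFP X F := by
  obtain ⟨M, hM⟩ := hF
  have hD : NPC.Poly M.D := Pool.Agent.H622R2.poly_of_polyTime M.poly
  have hg : NPC.Poly (rep φ) := by
    unfold rep
    exact NPC.Poly.ite (Poly.dec_eq (NPC.Poly.head? NPC.Poly.id) (NPC.Poly.const (some false)))
      (NPC.Poly.cons (NPC.Poly.const false) (hφ.comp (NPC.Poly.tail NPC.Poly.id))) NPC.Poly.id
  refine ⟨⟨fun x => rep φ (M.D x), Pool.Agent.H622R2.polyTime_of_poly_list (hg.comp hD), M.p⟩,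
    fun x => ?_⟩
  rw [← hM x]
  unfold Alg.out
  have key : ∀ (n : ℕ) (a : List Bool),
      Alg.run ⟨fun x => rep φ (M.D x), Pool.Agent.H622R2.polyTime_of_poly_list (hg.comp hD), M.p⟩
        X x n a = M.run A x n a := by
    intro n
    induction n with
    | zero => intro a; rfl
    | succ n ih =>
      intro a
      unfold Alg.run
      simp only
      rcases hs : M.D (pairBits x a) with _ | ⟨b, s⟩
      · rfl
      · cases b with
        | true => rfl
        | false =>
          have e : rep φ (false :: s) = false :: φ s := rfl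
          rw [e]
          simp only
          rw [ih, h s]
  exact key _ _

/-- the string starts with `000` -/
def c3 (y : List Bool) : Bool :=
  decide (y.head? = some false) && (decide (y.tail.head? = some false) &&
    decide (y.tail.tail.head? = some false))

theorem c3_iff {y : List Bool} : c3 y = true ↔ ∃ z, y = false :: false :: false :: z := by
  unfold c3
  rcases y with _ | ⟨a, _ | ⟨b, _ | ⟨c, z⟩⟩⟩ <;> simp

theorem poly_c3 : NPC.Poly c3 := by
  unfold c3
  have t1 : NPC.Poly (fun y : List Bool => y.tail) := NPC.Poly.tail NPC.Poly.id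
  have t2 : NPC.Poly (fun y : List Bool => y.tail.tail) := NPC.Poly.tail t1
  exact NPC.Poly.and (Poly.dec_eq (NPC.Poly.head? NPC.Poly.id) (NPC.Poly.const (some false)))
    (NPC.Poly.and (Poly.dec_eq (NPC.Poly.head? t1) (NPC.Poly.const (some false)))
      (Poly.dec_eq (NPC.Poly.head? t2) (NPC.Poly.const (some false))))

/-- from the copy to the join -/
def ph (y : List Bool) : List Bool :=
  if c3 y = true then
    (if y.tail.tail.tail.head? = some true then true :: false :: y.tail.tail.tail.tail
      else y.tail.tail.tail)
  else true :: true :: y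

theorem poly_ph : NPC.Poly ph := by
  unfold ph
  have t1 : NPC.Poly (fun y : List Bool => y.tail) := NPC.Poly.tail NPC.Poly.id
  have t3 : NPC.Poly (fun y : List Bool => y.tail.tail.tail) :=
    NPC.Poly.tail (NPC.Poly.tail t1)
  exact NPC.Poly.ite (Poly.dec_eq poly_c3 (NPC.Poly.const true))
    (NPC.Poly.ite (Poly.dec_eq (NPC.Poly.head? t3) (NPC.Poly.const (some true)))
      (NPC.Poly.cons (NPC.Poly.const true) (NPC.Poly.cons (NPC.Poly.const false)
        (NPC.Poly.tail t3))) t3)
    (NPC.Poly.cons (NPC.Poly.const true) (NPC.Poly.cons (NPC.Poly.const true) NPC.Poly.id))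

/-- from the join to the copy -/
def ps (y : List Bool) : List Bool :=
  if y.head? = some true then
    (if y.tail.head? = some true then
      (if c3 y.tail.tail = true then [false, false, false] else y.tail.tail)
    else (if y.tail = [] then [false, false, false] else
      false :: false :: false :: true :: y.tail.tail))
  else false :: false :: false :: y

theorem poly_ps : NPC.Poly ps := by
  unfold ps
  have t1 : NPC.Poly (fun y : List Bool => y.tail) := NPC.Poly.tail NPC.Poly.id
  have t2 : NPC.Poly (fun y : List Bool => y.tail.tail) := NPC.Poly.tail t1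
  have k0 : NPC.Poly (fun _ : List Bool => [false, false, false]) := NPC.Poly.const _
  have kf : ∀ {f : List Bool → List Bool}, NPC.Poly f →
      NPC.Poly (fun y => false :: false :: false :: f y) := fun hf =>
    NPC.Poly.cons (NPC.Poly.const false) (NPC.Poly.cons (NPC.Poly.const false)
      (NPC.Poly.cons (NPC.Poly.const false) hf))
  exact NPC.Poly.ite
    (Poly.dec_eq (NPC.Poly.head? NPC.Poly.id) (NPC.Poly.const (some true)))
    (NPC.Poly.ite (Poly.dec_eq (NPC.Poly.head? t1) (NPC.Poly.const (some true)))
      (NPC.Poly.ite (Poly.dec_eq (poly_c3.comp t2) (NPC.Poly.const true)) k0 t2)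
      (NPC.Poly.ite (Poly.dec_eq t1 (NPC.Poly.const [])) k0
        (kf (NPC.Poly.cons (NPC.Poly.const true) t2))))
    (kf NPC.Poly.id)

/-- the oracle which contains a copy of `C` at the strings `000z`, and `S` outside of it -/
structure Mix (A C S : Oracle) : Prop where
  inn : ∀ z, A (false :: false :: false :: z) = C z
  out : ∀ y, c3 y = false → A y = S y
  off : ∀ y, c3 y = true → S y = false

theorem mix_ph {A B E S : Oracle} (h : Mix A (join B E) S) (y : List Bool) :
    A y = join B (join E S) (ph y) := by
  unfold ph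
  by_cases hc : c3 y = true
  · rw [if_pos hc]
    obtain ⟨z, rfl⟩ := c3_iff.1 hc
    rw [h.inn]
    rcases z with _ | ⟨b, q⟩
    · rfl
    · cases b <;> rfl
  · rw [if_neg hc, h.out y (by simpa using hc)]
    rfl

theorem mix_ps {A B E S : Oracle} (h : Mix A (join B E) S) (y : List Bool) :
    join B (join E S) y = A (ps y) := by
  unfold ps
  rcases y with _ | ⟨b, y⟩
  · rw [if_neg (by simp), h.inn]
    rfl
  · cases b with
    | false =>
      rw [if_neg (by simp), h.inn]
      rfl
    | true =>
      rw [if_pos (by simp), List.tail_cons]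
      rcases y with _ | ⟨b, y⟩
      · rw [if_neg (by simp), if_pos rfl, h.inn []]
        rfl
      · cases b with
        | false =>
          rw [if_neg (by simp), if_neg (by simp), List.tail_cons, h.inn]
          rfl
        | true =>
          rw [if_pos (by simp), List.tail_cons]
          by_cases hc : c3 y = true
          · rw [if_pos hc, h.inn []]
            exact h.off y hc
          · rw [if_neg hc, h.out y (by simpa using hc)]
            rfl

theorem mix_isFP {A B E S : Oracle} (h : Mix A (join B E) S) (F : List Bool → List Bool) :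
    IsFP A F ↔ IsFP (join B (join E S)) F :=
  ⟨isFP_trans poly_ph (mix_ph h), isFP_trans poly_ps (mix_ps h)⟩

theorem mix_isNP {A B E S : Oracle} (h : Mix A (join B E) S) (L : Set (List Bool)) :
    IsNP A L ↔ IsNP (join B (join E S)) L := by
  unfold IsNP
  simp only [mix_isFP h]

theorem np_to_ro {A : Oracle} {L : Set (List Bool)} (h : IsNP A L) :
    Pool.Agent.H628R3.RO.IsNP A L := by
  obtain ⟨V, p, hV, hL⟩ := h
  have h0 : IsFP A (fun _ : List Bool => ([] : List Bool)) := IsFP.of_poly (NPC.Poly.const [])
  have hw : NPC.Poly (fun y : List Bool × List Bool => (unpair y.1).2) :=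
    (NPC.Poly.snd poly_unpair).comp (NPC.Poly.fst NPC.Poly.id)
  have hx : NPC.Poly (fun y : List Bool × List Bool => (unpair y.1).1) :=
    (NPC.Poly.fst poly_unpair).comp (NPC.Poly.fst NPC.Poly.id)
  have h1 := IsFP.seq (φ := fun p => pairBits (unpair p.1).2 (unpair p.1).1)
    (ψ := fun p => p.2.2) h0 hV (poly_pairBits hw hx)
    (NPC.Poly.snd (NPC.Poly.snd NPC.Poly.id))
  refine ⟨_, p, (isFP_iff A _).1 h1, fun x => (hL x).trans ?_⟩
  simp only [unpair_pairBits]

theorem np_iff_ro {A : Oracle} {L : Set (List Bool)} :
    IsNP A L ↔ Pool.Agent.H628R3.RO.IsNP A L := ⟨np_to_ro, np_of_np⟩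

end Pool.Agent.J4H65.CP
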