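import Pool.Agent.J4H65.CP.Defs
import Pool.Agent.J4H65.CP.Move

/-!
# Complete disjoint pairs by sparse oracles
-/

set_option autoImplicit false

namespace Pool.Agent.J4H65.CP

open Filter MeasureTheory Pool.Agent.NPC Pool.Agent.H620R2.Gauge Pool.Agent.H620R2.Gauge.CC
  Pool.Agent.J4H65.OP Pool.Agent.J4H65.OF

open Pool.Agent.J4H63.ESY (join)

theorem code_ne (b : ℕ → Polynomial ℕ) (e : ℕ) (x z : List Bool) :
    false :: false :: false :: z ≠ code (Rb b) e x := by
  intro h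
  have h1 := cpy_code (fun _ => true) b e x
  rw [← h] at h1
  exact Bool.noConfusion h1

theorem cpy_of_c3 {C : Oracle} {y : List Bool} (h : c3 y = false) : cpy C y = false := by
  unfold cpy
  split
  · rename_i z
    rw [c3_iff.2 ⟨_, rfl⟩] at h
    exact Bool.noConfusion h
  · rfl

/-- a sparse oracle yields `p`-optimal proof systems -/
theorem sparse (Λ : ℕ → Oracle → Set (List Bool)) (hΛ : ∀ e, IsLocal (Λ e)) (C : Oracle)
    (f : ℕ → ℕ) (hf : Tendsto f atTop atTop) :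
    ∃ A S : Oracle, Mix A C S ∧ Few f S ∧ HasSystems Λ A := by
  obtain ⟨gM, hgM⟩ := exists_enum
  choose bM hbM using fun e : ℕ => act_length (gM e).1 (gM e).2
  choose bΛ hbΛ using hΛ
  obtain ⟨thr, hthr⟩ := exists_thr ((tendsto_natCast_atTop_atTop (R := ℝ)).comp hf)
  set g := fam gM Λ with hg
  set b := fab bM bΛ with hb
  have h1 : ∀ e : ℕ, {q : List Bool | ∃ k n, Scale 1 e q n ∧
      Mark (Rb b) e k q n (cpy C)}.Finite := by
    intro e
    refine Set.Finite.subset Set.finite_empty ?_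
    rintro q ⟨k, n, hS, hm⟩
    exact absurd hm (no_mark C b hS)
  set A := Fi (ac thr) g b (cpy C) with hA
  have hin : ∀ z, A (false :: false :: false :: z) = C z := by
    intro z
    have h2 : false :: false :: false :: z ∉ Tf (ac thr) g b (cpy C) A := by
      rintro ⟨e, x, h3, -⟩
      exact code_ne b e x z h3
    rw [hA, Fi_not (ac thr) g b (cpy C) _ h2]
    rfl
  refine ⟨A, fun y => A y != cpy C y, ⟨hin, fun y hy => ?_, fun y hy => ?_⟩, fun N => ?_,
    fam_opt hgM hbM hbΛ thr (cpy C) h1⟩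
  · rw [cpy_of_c3 hy]
    simp
  · obtain ⟨z, rfl⟩ := c3_iff.1 hy
    rw [hin]
    simp [cpy]
  · have h2 := card_dif_le thr g b hthr (cpy C) N
    have h3 : ((2 * ⌊((Nat.cast ∘ f) N : ℝ) / 2⌋₊ : ℕ) : ℝ) ≤ f N := d_le (Nat.cast_nonneg _)
    have h4 : 2 * ⌊((Nat.cast ∘ f) N : ℝ) / 2⌋₊ ≤ f N := by exact_mod_cast h3
    refine le_trans (le_of_eq ?_) (h2.trans h4)
    congr 1
    unfold dif
    refine Finset.filter_congr fun i _ => ?_
    exact bne_iff_ne

/-- **Every oracle has complete disjoint pairs after the addition of a sparse oracle.** -/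
theorem pos (B E : Oracle) (f : ℕ → ℕ) (hf : Tendsto f atTop atTop) :
    ∃ S : Oracle, Few f S ∧ HasCompletePair (join B (join E S)) := by
  obtain ⟨A, S, hm, hS, hsys⟩ := sparse (fun _ => Lam) (fun _ => lam_local) (join B E) f hf
  obtain ⟨P, hP⟩ := hsys.2 0 (lam_nonempty A)
  obtain ⟨C, D, hC, hD, hCD, hall⟩ := complete hP
  refine ⟨S, hS, C, D, ⟨?_, ?_, fun x hx => Set.disjoint_left.1 hCD hx.1 hx.2⟩, ?_⟩
  · exact np_to_ro ((mix_isNP hm C).1 hC)
  · exact np_to_ro ((mix_isNP hm D).1 hD)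
  · rintro X₀ X₁ ⟨h0, h1, h2⟩
    obtain ⟨F, hF, hF0, hF1⟩ := hall X₀ X₁ ((mix_isNP hm X₀).2 (np_of_np h0))
      ((mix_isNP hm X₁).2 (np_of_np h1))
      (Set.disjoint_left.2 fun x hx hx' => h2 x ⟨hx, hx'⟩)
    exact ⟨F, (isFP_iff _ F).1 ((mix_isFP hm F).1 hF), hF0, hF1⟩

/-- a bounded number of elements among the first `N` strings: a finite set -/
theorem finite_of_few {S : Oracle} {c : ℕ} (h : Few (fun _ => c) S) : {y | S y = true}.Finite := by
  by_contra hinf
  obtain ⟨T, hT, hc⟩ := Set.Infinite.exists_subset_card_eq hinf (c + 1)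
  obtain ⟨N, hN⟩ : ∃ N, ∀ y ∈ T, idx y < N :=
    ⟨T.sup idx + 1, fun y hy => Nat.lt_succ_of_le (Finset.le_sup hy)⟩
  have h1 : T.card ≤ ((Finset.range N).filter (fun i => S (str i) = true)).card := by
    refine Finset.card_le_card_of_injOn idx (fun y hy => ?_) (fun a _ b _ hab => ?_)
    · have hy' : y ∈ T := hy
      have h2 : S y = true := hT hy'
      rw [Finset.mem_coe, Finset.mem_filter, Finset.mem_range, str_idx]
      exact ⟨hN y hy', h2⟩
    · rw [← str_idx a, ← str_idx b, hab]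
  have h2 := h N
  simp only at h2
  omega

theorem few_of_not_tendsto {f : ℕ → ℕ} (hf : ¬ Tendsto f atTop atTop) {S : Oracle}
    (hS : Few f S) : ∃ c, Few (fun _ => c) S := by
  obtain ⟨c, hc⟩ : ∃ c, ∀ N, ∃ M, N ≤ M ∧ f M ≤ c := by
    by_contra hcon
    refine hf (tendsto_atTop.2 fun c => ?_)
    by_contra hev
    refine hcon ⟨c, fun N => ?_⟩
    by_contra hN
    refine hev (eventually_atTop.2 ⟨N, fun M hM => ?_⟩)
    by_contra hlt
    exact hN ⟨M, hM, by omega⟩
  refine ⟨c, fun N => ?_⟩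
  obtain ⟨M, hM, hfM⟩ := hc N
  refine le_trans (Finset.card_le_card fun i hi => ?_) ((hS M).trans hfM)
  rw [Finset.mem_filter, Finset.mem_range] at hi ⊢
  exact ⟨lt_of_lt_of_le hi.1 hM, hi.2⟩

/-- finite oracles do not help -/
theorem neg (E : Oracle) : ∀ᵐ B ∂Pool.Agent.H628R3.RO.randomOracle, ∀ S : Oracle,
    {y | S y = true}.Finite → Pool.Agent.J4H25.NPK.NoHardPairK (join B (join E S)) := by
  have h1 : ∀ᵐ B ∂Pool.Agent.H628R3.RO.randomOracle, ∀ D : Finset (List Bool),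
      Pool.Agent.J4H25.NPK.NoHardPairK (join B (join E (fun y => decide (y ∈ D)))) := by
    rw [ae_all_iff]
    intro D
    exact Pool.Agent.J4H25.NPK.mainK (Pool.Agent.J4H25.NPP.embJoin2 _)
  filter_upwards [h1] with B hB S hS
  have h2 : S = fun y => decide (y ∈ hS.toFinset) := by
    funext y
    rw [Bool.eq_iff_iff, decide_eq_true_eq, Set.Finite.mem_toFinset]
    rfl
  rw [h2]
  exact hB _

end Pool.Agent.J4H65.CP
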