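import Pool.Agent.H620R2.Gauge.Defs

/-!
# Probabilistic polynomial time relative to an oracle
-/

set_option autoImplicit false

namespace Pool.Agent.J4H65.CP

open Pool.Agent.NPC Pool.Agent.H620R2.Gauge

/-- The number of the random strings `r` of length `m` for which `V` accepts the pair of `r` and
`x`. -/
def cnt (V : List Bool → List Bool) (m : ℕ) (x : List Bool) : ℕ :=
  ((Finset.univ : Finset (Fin m → Bool)).filter
    (fun r => V (pairBits (List.ofFn r) x) = [true])).card

/-- The language `L` is in `BPP` relative to `X`: some polynomial-time algorithm, which gets a random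
string of length `p |x|` besides the input `x`, accepts with probability more than `2 / 3` if `x` is
in `L`, and with probability less than `1 / 3` if it is not. -/
def IsBPP (X : Oracle) (L : Set (List Bool)) : Prop :=
  ∃ (V : List Bool → List Bool) (p : Polynomial ℕ), IsFP X V ∧
    ∀ x : List Bool, (x ∈ L → 2 * 2 ^ p.eval x.length < 3 * cnt V (p.eval x.length) x) ∧
      (x ∉ L → 3 * cnt V (p.eval x.length) x < 2 ^ p.eval x.length)

/-- The language `L` is in `RP` relative to `X`: acceptance with probability more than `1 / 2` if `x`
is in `L`, and with probability `0` if it is not. -/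
def IsRP (X : Oracle) (L : Set (List Bool)) : Prop :=
  ∃ (V : List Bool → List Bool) (p : Polynomial ℕ), IsFP X V ∧
    ∀ x : List Bool, (x ∈ L → 2 ^ p.eval x.length < 2 * cnt V (p.eval x.length) x) ∧
      (x ∉ L → cnt V (p.eval x.length) x = 0)

/-- The language `L` is in `ZPP` relative to `X`. -/
def IsZPP (X : Oracle) (L : Set (List Bool)) : Prop := IsRP X L ∧ IsRP X Lᶜ

/-- The class `K` of languages has a complete set for polynomial-time many-one reductions relative to
`X`. -/
def HasComplete (K : Set (List Bool) → Prop) (X : Oracle) : Prop :=
  ∃ C : Set (List Bool), K C ∧ ∀ L : Set (List Bool), K L →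
    ∃ F : List Bool → List Bool, IsFP X F ∧ ∀ x, x ∈ L ↔ F x ∈ C

end Pool.Agent.J4H65.CP
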