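import Pool.Agent.J4H65.CP.Uni

/-!
# A complete disjoint pair from a `p`-optimal proof system
-/

set_option autoImplicit false

namespace Pool.Agent.J4H65.CP

open Pool.Agent.NPC Pool.Agent.H620R2.Gauge Pool.Agent.H620R2.Gauge.CC Pool.Agent.H660R2.NX
  Pool.Agent.J4H65.OP Pool.Agent.J4H65.OF

attribute [local irreducible] unpair

/-- the question to the simulation -/
def vq (i : Bool) (p : List Bool × List Bool) : List Bool :=
  pairBits (side i p.2)
    (pairBits (pairBits (unpair p.1).1 (unpair (unpair p.1).2).2) (xl p.2))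

/-- the decision -/
def vd (p : List Bool × List Bool × List Bool) : List Bool :=
  if (decide ((unpair (unpair p.1).2).2.length ≤ (xl p.2.1).length) &&
    (decide ((unpair p.1).1.length ≤ (xl p.2.1).length) &&
      decide (p.2.2 = [true, true]))) = true then [true] else []

theorem poly_vq (i : Bool) : NPC.Poly (vq i) := by
  unfold vq
  have h1 : NPC.Poly (fun p : List Bool × List Bool => unpair p.1) :=
    poly_unpair.comp (NPC.Poly.fst NPC.Poly.id)
  exact poly_pairBits ((poly_side i).comp (NPC.Poly.snd NPC.Poly.id))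
    (poly_pairBits (poly_pairBits (NPC.Poly.fst h1)
      (NPC.Poly.snd (poly_unpair.comp (NPC.Poly.snd h1))))
      (poly_xl.comp (NPC.Poly.snd NPC.Poly.id)))

theorem poly_vd : NPC.Poly vd := by
  unfold vd
  have h1 : NPC.Poly (fun p : List Bool × List Bool × List Bool => unpair p.1) :=
    poly_unpair.comp (NPC.Poly.fst NPC.Poly.id)
  have h2 : NPC.Poly (fun p : List Bool × List Bool × List Bool => (xl p.2.1).length) :=
    NPC.Poly.length (poly_xl.comp (NPC.Poly.fst (NPC.Poly.snd NPC.Poly.id)))
  refine NPC.Poly.ite (Poly.dec_eq ?_ (NPC.Poly.const true)) (NPC.Poly.const [true])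
    (NPC.Poly.const [])
  exact NPC.Poly.and (NPC.Poly.decide_le
      (NPC.Poly.length (NPC.Poly.snd (poly_unpair.comp (NPC.Poly.snd h1)))) h2)
    (NPC.Poly.and (NPC.Poly.decide_le (NPC.Poly.length (NPC.Poly.fst h1)) h2)
      (Poly.dec_eq (NPC.Poly.snd (NPC.Poly.snd NPC.Poly.id)) (NPC.Poly.const [true, true])))

/-- the verifier -/
def ver (A : Oracle) (P : List Bool → List Bool) (i : Bool) (v : List Bool) : List Bool :=
  vd (v, P (unpair (unpair v).2).1, so A (vq i (v, P (unpair (unpair v).2).1)))

theorem isFP_ver {A : Oracle} {P : List Bool → List Bool} (hP : IsFP A P) (i : Bool) :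
    IsFP A (ver A P i) := by
  have h1 : NPC.Poly (fun v : List Bool => (unpair (unpair v).2).1) :=
    NPC.Poly.fst (poly_unpair.comp (NPC.Poly.snd poly_unpair))
  exact IsFP.seq (φ := vq i) (ψ := vd) (hP.comp (IsFP.of_poly h1)) (isFP_so A) (poly_vq i) poly_vd

theorem ver_iff {A : Oracle} {P : List Bool → List Bool} {i : Bool} {w y : List Bool} :
    ver A P i (pairBits w y) = [true] ↔
      (unpair y).2.length ≤ (xl (P (unpair y).1)).length ∧
        w.length ≤ (xl (P (unpair y).1)).length ∧
        sim A (side i (P (unpair y).1)) (pairBits w (unpair y).2) (xl (P (unpair y).1)).length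
          ((pairBits (side i (P (unpair y).1))
            (pairBits (pairBits w (unpair y).2) (xl (P (unpair y).1)))).length + 2) [] =
            some [true] := by
  unfold ver vd vq so
  simp only [unpair_pairBits]
  have e1 : ∀ a b c : List Bool, xq (pairBits a (pairBits b c)) = a := by
    intro a b c
    unfold xq
    rw [unpair_pairBits]
  have e2 : ∀ a b c : List Bool, xw (pairBits a (pairBits b c)) = b := by
    intro a b c
    unfold xw
    rw [unpair_pairBits, unpair_pairBits]
  have e3 : ∀ a b c : List Bool, xl (pairBits a (pairBits b c)) = c := by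
    intro a b c
    unfold xl
    rw [unpair_pairBits, unpair_pairBits]
  rw [e1, e2, e3]
  rcases hs : sim A (side i (P (unpair y).1)) (pairBits w (unpair y).2)
    (xl (P (unpair y).1)).length ((pairBits (side i (P (unpair y).1))
      (pairBits (pairBits w (unpair y).2) (xl (P (unpair y).1)))).length + 2) [] with _ | z
  · simp
  · simp

/-- the sets of the complete pair -/
def cs (A : Oracle) (P : List Bool → List Bool) (p : Polynomial ℕ) (i : Bool) :
    Set (List Bool) :=
  {y | ∃ w : List Bool, w.length ≤ p.eval y.length ∧ ver A P i (pairBits w y) = [true]}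

/-- a verifier which checks the length of the witness -/
theorem np_strict {A : Oracle} {L : Set (List Bool)} (h : IsNP A L) :
    ∃ (V : List Bool → List Bool) (p : Polynomial ℕ), IsFP A V ∧
      (∀ w x, V (pairBits w x) = [true] → w.length ≤ p.eval x.length ∧ x ∈ L) ∧
      ∀ x ∈ L, ∃ w : List Bool, w.length ≤ p.eval x.length ∧ V (pairBits w x) = [true] := by
  obtain ⟨V, p, hV, hL⟩ := h
  have h1 : NPC.Poly (fun q : List Bool × List Bool × List Bool => unpair q.1) :=
    poly_unpair.comp (NPC.Poly.fst NPC.Poly.id)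
  have h2 : UPoly (fun q : List Bool × List Bool × List Bool => p.eval (unpair q.1).2.length) :=
    UPoly.eval (UPoly.length (NPC.Poly.snd h1)) p
  have h3 := IsFP.seq (φ := fun q => q.1)
    (ψ := fun q => if (unpair q.1).1.length ≤ p.eval (unpair q.1).2.length then q.2.2 else [])
    hV hV (NPC.Poly.fst NPC.Poly.id) (NPC.Poly.ite
      (NPC.Poly.decide_le (NPC.Poly.length (NPC.Poly.fst h1)) h2.toPoly)
      (NPC.Poly.snd (NPC.Poly.snd NPC.Poly.id)) (NPC.Poly.const []))
  refine ⟨_, p, h3, fun w x hw => ?_, fun x hx => ?_⟩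
  · simp only [unpair_pairBits] at hw
    split_ifs at hw with h4
    exact ⟨h4, (hL x).2 ⟨w, h4, hw⟩⟩
  · obtain ⟨w, hw1, hw2⟩ := (hL x).1 hx
    refine ⟨w, hw1, ?_⟩
    simp only [unpair_pairBits]
    rw [if_pos hw1, hw2]

/-- **A `p`-optimal proof system for `Lam A` yields a strongly many-one complete disjoint pair.** -/
theorem complete {A : Oracle} {P : List Bool → List Bool} (hP : IsPOptimal A (Lam A) P) :
    ∃ C D : Set (List Bool), IsNP A C ∧ IsNP A D ∧ Disjoint C D ∧
      ∀ X Y : Set (List Bool), IsNP A X → IsNP A Y → Disjoint X Y →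
        ∃ F : List Bool → List Bool, IsFP A F ∧ (∀ x, x ∈ X ↔ F x ∈ C) ∧
          ∀ x, x ∈ Y ↔ F x ∈ D := by
  obtain ⟨⟨⟨MP, hMP⟩, hrange⟩, hopt⟩ := hP
  have hFP : IsFP A P := ⟨MP, hMP⟩
  obtain ⟨p, hp⟩ := A2.out_bound MP
  have hp' : ∀ u, (P u).length ≤ p.eval u.length := fun u => hp A u _ (hMP u)
  have hmem : ∀ u, P u ∈ Lam A := fun u => hrange ▸ ⟨u, rfl⟩
  have hacc : ∀ {i : Bool} {w y : List Bool}, ver A P i (pairBits w y) = [true] →
      (unpair y).2.length ≤ (xl (P (unpair y).1)).length ∧
      w.length ≤ (xl (P (unpair y).1)).length ∧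
        acc A (side i (P (unpair y).1)) (pairBits w (unpair y).2)
          (xl (P (unpair y).1)).length := fun h => by
    obtain ⟨h1, h2, h3⟩ := ver_iff.1 h
    exact ⟨h1, h2, _, h3⟩
  refine ⟨cs A P p false, cs A P p true, ⟨_, p, isFP_ver hFP false, fun x => Iff.rfl⟩,
    ⟨_, p, isFP_ver hFP true, fun x => Iff.rfl⟩, ?_, ?_⟩
  · rw [Set.disjoint_left]
    rintro y ⟨w₀, -, h0⟩ ⟨w₁, -, h1⟩
    obtain ⟨a1, a2, a3⟩ := hacc h0
    obtain ⟨-, b2, b3⟩ := hacc h1
    exact hmem _ _ w₀ w₁ a1 a2 b2 ⟨a3, b3⟩
  · intro X Y hX hY hXY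
    obtain ⟨V₀, p₀, ⟨M₀, hM₀⟩, hs₀, hc₀⟩ := np_strict hX
    obtain ⟨V₁, p₁, ⟨M₁, hM₁⟩, hs₁, hc₁⟩ := np_strict hY
    obtain ⟨q₀, Q₀, hq₀⟩ := exists_prog M₀
    obtain ⟨q₁, Q₁, hq₁⟩ := exists_prog M₁
    obtain ⟨k0, k1⟩ := hq₀ A V₀ hM₀
    obtain ⟨l0, l1⟩ := hq₁ A V₁ hM₁
    set T : Polynomial ℕ := Q₀.comp (2 * p₀ + 1 + Polynomial.X) +
      Q₁.comp (2 * p₁ + 1 + Polynomial.X) + p₀ + p₁ + Polynomial.X with hT
    have hTe : ∀ n, T.eval n = Q₀.eval (2 * p₀.eval n + 1 + n) +
        Q₁.eval (2 * p₁.eval n + 1 + n) + p₀.eval n + p₁.eval n + n := by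
      intro n
      simp [hT, Polynomial.eval_comp]
    have hz : ∀ t, zz q₀ q₁ t ∈ Lam A := by
      intro t x w₀ w₁ _ _ _ h
      rw [side_false, side_true, xl_zz] at h
      exact Set.disjoint_left.1 hXY (hs₀ _ _ (k0 _ _ h.1)).2 (hs₁ _ _ (l0 _ _ h.2)).2
    -- the proof system
    set Qs : List Bool → List Bool := fun w =>
      if w.head? = some true then zz q₀ q₁ (T.eval w.length) else P w.tail with hQs
    have hzz : NPC.Poly (fun w : List Bool => zz q₀ q₁ (T.eval w.length)) := by
      unfold zz
      exact poly_pairBits (NPC.Poly.const q₀) (poly_pairBits (NPC.Poly.const q₁)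
        (poly_rep (UPoly.eval (UPoly.length NPC.Poly.id) T)))
    have hQF : IsFP A Qs := by
      have h1 := IsFP.seq (F := fun w => P w.tail) (G := fun _ => [])
        (φ := fun q => q.1)
        (ψ := fun q => if q.1.head? = some true then zz q₀ q₁ (T.eval q.1.length) else q.2.1)
        (hFP.comp (IsFP.of_poly (NPC.Poly.tail NPC.Poly.id)))
        (IsFP.of_poly (NPC.Poly.const [])) (NPC.Poly.fst NPC.Poly.id)
        (NPC.Poly.ite (Poly.dec_eq (NPC.Poly.head? (NPC.Poly.fst NPC.Poly.id))
          (NPC.Poly.const (some true))) (hzz.comp (NPC.Poly.fst NPC.Poly.id))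
          (NPC.Poly.fst (NPC.Poly.snd NPC.Poly.id)))
      exact h1
    have hQR : Set.range Qs = Lam A := by
      apply Set.Subset.antisymm
      · rintro _ ⟨w, rfl⟩
        simp only [hQs]
        split_ifs
        · exact hz _
        · exact hmem _
      · intro z hz'
        rw [← hrange] at hz'
        obtain ⟨v, rfl⟩ := hz'
        exact ⟨false :: v, by simp [hQs]⟩
    obtain ⟨h, hh, hPh⟩ := hopt Qs ⟨hQF, hQR⟩
    have hPh' : ∀ x : List Bool, P (h (true :: x)) = zz q₀ q₁ (T.eval (x.length + 1)) := by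
      intro x
      rw [hPh]
      simp [hQs]
    refine ⟨fun x => pairBits (h (true :: x)) x, ?_, fun x => ?_, fun x => ?_⟩
    · exact IsFP.pair (hh.comp (IsFP.of_poly (NPC.Poly.cons (NPC.Poly.const true) NPC.Poly.id)))
        (IsFP.of_poly NPC.Poly.id)
    · have hTn : T.eval x.length ≤ T.eval (x.length + 1) := eval_mono _ (Nat.le_succ _)
      rw [hTe] at hTn
      constructor
      · intro hx
        obtain ⟨w, hw1, hw2⟩ := hc₀ x hx
        refine ⟨w, ?_, ?_⟩
        · show w.length ≤ p.eval (pairBits (h (true :: x)) x).length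
          have h1 := hp' (h (true :: x))
          rw [hPh'] at h1
          have h2 := le_zz q₀ q₁ (T.eval (x.length + 1))
          have h3 : p.eval (h (true :: x)).length ≤
              p.eval (pairBits (h (true :: x)) x).length :=
            eval_mono _ (by rw [Pool.Agent.H620R2.Gauge.length_pairBits]; omega)
          omega
        · rw [ver_iff, unpair_pairBits]
          simp only
          rw [hPh', xl_zz, side_false]
          refine ⟨by omega, by omega, ?_⟩
          rw [← hw2]
          have h4 : Q₀.eval (pairBits w x).length ≤ Q₀.eval (2 * p₀.eval x.length + 1 + x.length) :=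
            eval_mono _ (by rw [Pool.Agent.H620R2.Gauge.length_pairBits]; omega)
          refine k1 _ _ _ (by omega) ?_
          rw [Pool.Agent.H620R2.Gauge.length_pairBits q₀,
            Pool.Agent.H620R2.Gauge.length_pairBits (pairBits _ _), xl_zz]
          omega
      · rintro ⟨w, -, hw⟩
        obtain ⟨-, -, h1⟩ := hacc hw
        rw [unpair_pairBits] at h1
        simp only at h1
        rw [hPh', xl_zz, side_false] at h1
        exact (hs₀ _ _ (k0 _ _ h1)).2
    · have hTn : T.eval x.length ≤ T.eval (x.length + 1) := eval_mono _ (Nat.le_succ _)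
      rw [hTe] at hTn
      constructor
      · intro hx
        obtain ⟨w, hw1, hw2⟩ := hc₁ x hx
        refine ⟨w, ?_, ?_⟩
        · show w.length ≤ p.eval (pairBits (h (true :: x)) x).length
          have h1 := hp' (h (true :: x))
          rw [hPh'] at h1
          have h2 := le_zz q₀ q₁ (T.eval (x.length + 1))
          have h3 : p.eval (h (true :: x)).length ≤
              p.eval (pairBits (h (true :: x)) x).length :=
            eval_mono _ (by rw [Pool.Agent.H620R2.Gauge.length_pairBits]; omega)
          omega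
        · rw [ver_iff, unpair_pairBits]
          simp only
          rw [hPh', xl_zz, side_true]
          refine ⟨by omega, by omega, ?_⟩
          rw [← hw2]
          have h4 : Q₁.eval (pairBits w x).length ≤ Q₁.eval (2 * p₁.eval x.length + 1 + x.length) :=
            eval_mono _ (by rw [Pool.Agent.H620R2.Gauge.length_pairBits]; omega)
          refine l1 _ _ _ (by omega) ?_
          rw [Pool.Agent.H620R2.Gauge.length_pairBits q₁,
            Pool.Agent.H620R2.Gauge.length_pairBits (pairBits _ _), xl_zz]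
          omega
      · rintro ⟨w, -, hw⟩
        obtain ⟨-, -, h1⟩ := hacc hw
        rw [unpair_pairBits] at h1
        simp only at h1
        rw [hPh', xl_zz, side_true] at h1
        exact (hs₁ _ _ (l0 _ _ h1)).2

end Pool.Agent.J4H65.CP
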