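import Pool.Agent.J4H65.CP.Cls
import Pool.Agent.J4H65.CP.Main

/-!
# Complete sets for `BPP`, `RP` and `ZPP` by sparse oracles
-/

set_option autoImplicit false

namespace Pool.Agent.J4H65.CP

open Filter Pool.Agent.NPC Pool.Agent.H620R2.Gauge Pool.Agent.H620R2.Gauge.CC
  Pool.Agent.J4H65.OP Pool.Agent.J4H65.OF

open Pool.Agent.J4H63.ESY (join)

theorem sc1 {k a N : ℕ} (c d : ℕ) (hk : 0 < k) : c * (k * a) < d * (k * N) ↔ c * a < d * N := by
  rw [mul_left_comm c, mul_left_comm d]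
  exact Nat.mul_lt_mul_left hk

theorem sc2 {k a : ℕ} (hk : 0 < k) : k * a = 0 ↔ a = 0 := by
  rw [Nat.mul_eq_zero]
  omega

/-- the promise of `BPP` -/
def bppS : Spec where
  Φ a _ N := 3 * a < 1 * N ∨ 2 * N < 3 * a
  Ψ a _ N := 2 * N < 3 * a
  scΦ k a b N hk := by rw [sc1 3 1 hk, sc1 2 3 hk]
  scΨ k a b N hk := sc1 2 3 hk
  dΦ N hN := by omega

/-- the promise of `RP` -/
def rpS : Spec where
  Φ a _ N := a = 0 ∨ 1 * N < 2 * a
  Ψ a _ N := 1 * N < 2 * a
  scΦ k a b N hk := by rw [sc1 1 2 hk, sc2 hk]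
  scΨ k a b N hk := sc1 1 2 hk
  dΦ N hN := by omega

/-- the promise of `ZPP` -/
def zppS : Spec where
  Φ a b N := (a = 0 ∧ 1 * N < 2 * b) ∨ (b = 0 ∧ 1 * N < 2 * a)
  Ψ a _ N := 1 * N < 2 * a
  scΦ k a b N hk := by rw [sc1 1 2 hk, sc1 1 2 hk, sc2 hk, sc2 hk]
  scΨ k a b N hk := sc1 1 2 hk
  dΦ N hN := by omega

theorem bpp_iff {X : Oracle} {L : Set (List Bool)} : IsBPP X L ↔ Cls bppS X L := by
  constructor
  · rintro ⟨V, p, hV, h⟩
    refine ⟨V, V, p, hV, hV, fun x => ?_⟩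
    obtain ⟨h1, h2⟩ := h x
    simp only [bppS]
    by_cases hx : x ∈ L
    · have h3 := h1 hx
      exact ⟨Or.inr h3, fun _ => h3, fun _ => hx⟩
    · have h3 := h2 hx
      exact ⟨Or.inl (by omega), fun h4 => absurd h4 hx, fun h4 => by omega⟩
  · rintro ⟨V₀, V₁, p, hV₀, -, h⟩
    refine ⟨V₀, p, hV₀, fun x => ?_⟩
    obtain ⟨h1, h2⟩ := h x
    simp only [bppS] at h1 h2
    refine ⟨fun hx => h2.1 hx, fun hx => ?_⟩
    rcases h1 with h1 | h1
    · omega
    · exact absurd (h2.2 h1) hx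

theorem rp_iff {X : Oracle} {L : Set (List Bool)} : IsRP X L ↔ Cls rpS X L := by
  constructor
  · rintro ⟨V, p, hV, h⟩
    refine ⟨V, V, p, hV, hV, fun x => ?_⟩
    obtain ⟨h1, h2⟩ := h x
    simp only [rpS]
    by_cases hx : x ∈ L
    · have h3 := h1 hx
      exact ⟨Or.inr (by omega), fun _ => by omega, fun _ => hx⟩
    · have h3 := h2 hx
      exact ⟨Or.inl h3, fun h4 => absurd h4 hx, fun h4 => by omega⟩
  · rintro ⟨V₀, V₁, p, hV₀, -, h⟩
    refine ⟨V₀, p, hV₀, fun x => ?_⟩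
    obtain ⟨h1, h2⟩ := h x
    simp only [rpS] at h1 h2
    refine ⟨fun hx => ?_, fun hx => ?_⟩
    · have := h2.1 hx
      omega
    · rcases h1 with h1 | h1
      · exact h1
      · exact absurd (h2.2 h1) hx

/-- longer random strings -/
theorem cnt_take {A : Oracle} {V : List Bool → List Bool} (hV : IsFP A V) (p r : Polynomial ℕ) :
    ∃ V' : List Bool → List Bool, IsFP A V' ∧ ∀ x : List Bool,
      cnt V' (p.eval x.length + r.eval x.length) x =
        2 ^ r.eval x.length * cnt V (p.eval x.length) x := by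
  classical
  have h1 : NPC.Poly (fun q : List Bool × List Bool => unpair q.1) :=
    poly_unpair.comp (NPC.Poly.fst NPC.Poly.id)
  have h0 : IsFP A (fun _ : List Bool => ([] : List Bool)) := IsFP.of_poly (NPC.Poly.const [])
  have h2 := IsFP.seq (φ := fun q => pairBits ((unpair q.1).1.take (p.eval (unpair q.1).2.length))
      (unpair q.1).2) (ψ := fun q => q.2.2) h0 hV
    (Pool.Agent.H660R2.NX.poly_pairBits (Pool.Agent.H620R2.Gauge.R1.poly_take (NPC.Poly.fst h1)
      (UPoly.eval (UPoly.length (NPC.Poly.snd h1)) p)) (NPC.Poly.snd h1))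
    (NPC.Poly.snd (NPC.Poly.snd NPC.Poly.id))
  refine ⟨_, h2, fun x => ?_⟩
  have h3 := card_take (p.eval x.length) (r.eval x.length)
    (fun l => V (pairBits l x) = [true])
  unfold cnt
  simp only [unpair_pairBits]
  convert h3

theorem zpp_iff {X : Oracle} {L : Set (List Bool)} : IsZPP X L ↔ Cls zppS X L := by
  constructor
  · rintro ⟨⟨V₀, p₀, hV₀, h₀⟩, ⟨V₁, p₁, hV₁, h₁⟩⟩
    obtain ⟨W₀, hW₀, hc₀⟩ := cnt_take hV₀ p₀ p₁
    obtain ⟨W₁, hW₁, hc₁⟩ := cnt_take hV₁ p₁ p₀
    refine ⟨W₀, W₁, p₀ + p₁, hW₀, hW₁, fun x => ?_⟩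
    have e0 : (p₀ + p₁).eval x.length = p₀.eval x.length + p₁.eval x.length := by simp
    have c0 := hc₀ x
    have c1 := hc₁ x
    rw [add_comm] at c1
    rw [e0, c0, c1, pow_add]
    obtain ⟨a1, a2⟩ := h₀ x
    obtain ⟨b1, b2⟩ := h₁ x
    have hp0 : 0 < 2 ^ p₀.eval x.length := by positivity
    have hp1 : 0 < 2 ^ p₁.eval x.length := by positivity
    simp only [zppS, one_mul]
    by_cases hx : x ∈ L
    · have h3 := a1 hx
      have h4 := b2 (fun h => h hx)
      have h5 : 2 ^ p₀.eval x.length * 2 ^ p₁.eval x.length <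
          2 * (2 ^ p₁.eval x.length * cnt V₀ (p₀.eval x.length) x) := by
        rw [mul_comm (2 ^ p₀.eval x.length), mul_left_comm]
        exact Nat.mul_lt_mul_of_pos_left h3 hp1
      rw [h4]
      exact ⟨Or.inr ⟨by simp, h5⟩, fun _ => h5, fun _ => hx⟩
    · have h3 := a2 hx
      have h4 := b1 hx
      rw [h3]
      refine ⟨Or.inl ⟨by simp, ?_⟩, fun h => absurd h hx, fun h => by simp at h⟩
      rw [mul_left_comm]
      exact Nat.mul_lt_mul_of_pos_left h4 hp0
  · rintro ⟨V₀, V₁, p, hV₀, hV₁, h⟩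
    refine ⟨⟨V₀, p, hV₀, fun x => ?_⟩, ⟨V₁, p, hV₁, fun x => ?_⟩⟩
    · obtain ⟨h1, h2⟩ := h x
      simp only [zppS] at h1 h2
      refine ⟨fun hx => ?_, fun hx => ?_⟩
      · have := h2.1 hx
        omega
      · rcases h1 with h1 | h1
        · exact h1.1
        · exact absurd (h2.2 h1.2) hx
    · obtain ⟨h1, h2⟩ := h x
      simp only [zppS] at h1 h2
      refine ⟨fun hx => ?_, fun hx => ?_⟩
      · rcases h1 with h1 | h1
        · omega
        · exact absurd (h2.2 h1.2) hx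
      · have h3 : x ∈ L := not_not.1 hx
        have h4 := h2.1 h3
        rcases h1 with h1 | h1
        · omega
        · exact h1.1

/-! ### The oracle -/

/-- from the copy to the join -/
def ph2 (y : List Bool) : List Bool :=
  if c3 y = true then false :: y.tail.tail.tail else true :: y

theorem poly_ph2 : NPC.Poly ph2 := by
  unfold ph2
  exact NPC.Poly.ite (Poly.dec_eq poly_c3 (NPC.Poly.const true))
    (NPC.Poly.cons (NPC.Poly.const false)
      (NPC.Poly.tail (NPC.Poly.tail (NPC.Poly.tail NPC.Poly.id))))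
    (NPC.Poly.cons (NPC.Poly.const true) NPC.Poly.id)

/-- from the join to the copy -/
def ps2 (y : List Bool) : List Bool :=
  if y.head? = some true then (if c3 y.tail = true then [] else y.tail)
  else (if y = [] then [] else false :: false :: false :: y.tail)

theorem poly_ps2 : NPC.Poly ps2 := by
  unfold ps2
  have t1 : NPC.Poly (fun y : List Bool => y.tail) := NPC.Poly.tail NPC.Poly.id
  exact NPC.Poly.ite
    (Poly.dec_eq (NPC.Poly.head? NPC.Poly.id) (NPC.Poly.const (some true)))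
    (NPC.Poly.ite (Poly.dec_eq (poly_c3.comp t1) (NPC.Poly.const true)) (NPC.Poly.const []) t1)
    (NPC.Poly.ite (Poly.dec_eq NPC.Poly.id (NPC.Poly.const [])) (NPC.Poly.const [])
      (NPC.Poly.cons (NPC.Poly.const false) (NPC.Poly.cons (NPC.Poly.const false)
        (NPC.Poly.cons (NPC.Poly.const false) t1))))

theorem mix_isFP2 {A X S : Oracle} (h : Mix A X S) (h0 : A [] = false)
    (F : List Bool → List Bool) : IsFP A F ↔ IsFP (join X S) F := by
  refine ⟨isFP_trans poly_ph2 fun y => ?_, isFP_trans poly_ps2 fun y => ?_⟩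
  · unfold ph2
    by_cases hc : c3 y = true
    · rw [if_pos hc]
      obtain ⟨z, rfl⟩ := c3_iff.1 hc
      rw [h.inn]
      rfl
    · rw [if_neg hc, h.out y (by simpa using hc)]
      rfl
  · unfold ps2
    rcases y with _ | ⟨b, y⟩
    · rw [if_neg (by simp), if_pos rfl, h0]
      rfl
    · cases b with
      | false =>
        rw [if_neg (by simp), if_neg (by simp), List.tail_cons, h.inn]
        rfl
      | true =>
        rw [if_pos (by simp), List.tail_cons]
        by_cases hc : c3 y = true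
        · rw [if_pos hc, h0]
          exact h.off y hc
        · rw [if_neg hc, h.out y (by simpa using hc)]
          rfl

/-- a sparse oracle yields `p`-optimal proof systems -/
theorem sparse2 (Λ : ℕ → Oracle → Set (List Bool)) (hΛ : ∀ e, IsLocal (Λ e)) (C : Oracle)
    (f : ℕ → ℕ) (hf : Tendsto f atTop atTop) :
    ∃ A S : Oracle, Mix A C S ∧ A [] = false ∧ Few f S ∧ HasSystems Λ A := by
  obtain ⟨gM, hgM⟩ := exists_enum
  choose bM hbM using fun e : ℕ => act_length (gM e).1 (gM e).2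
  choose bΛ hbΛ using hΛ
  obtain ⟨thr, hthr⟩ := exists_thr ((tendsto_natCast_atTop_atTop (R := ℝ)).comp hf)
  set g := fam gM Λ with hg
  set b := fab bM bΛ with hb
  have h1 : ∀ e : ℕ, {q : List Bool | ∃ k n, Scale 1 e q n ∧
      Mark (Rb b) e k q n (cpy C)}.Finite := by
    intro e
    refine Set.Finite.subset Set.finite_empty ?_
    rintro q ⟨k, n, hS, hm⟩
    exact absurd hm (no_mark C b hS)
  set A := Fi (ac thr) g b (cpy C) with hA
  have hin : ∀ z, A (false :: false :: false :: z) = C z := by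
    intro z
    have h2 : false :: false :: false :: z ∉ Tf (ac thr) g b (cpy C) A := by
      rintro ⟨e, x, h3, -⟩
      exact code_ne b e x z h3
    rw [hA, Fi_not (ac thr) g b (cpy C) _ h2]
    rfl
  have hnil : A [] = false := by
    have h2 : [] ∉ Tf (ac thr) g b (cpy C) A := by
      rintro ⟨e, x, h3, -⟩
      have h4 := lt_length_code (Rb b) e x
      rw [← h3] at h4
      simp at h4
    rw [hA, Fi_not (ac thr) g b (cpy C) _ h2]
    rfl
  refine ⟨A, fun y => A y != cpy C y, ⟨hin, fun y hy => ?_, fun y hy => ?_⟩, hnil, fun N => ?_,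
    fam_opt hgM hbM hbΛ thr (cpy C) h1⟩
  · rw [cpy_of_c3 hy]
    simp
  · obtain ⟨z, rfl⟩ := c3_iff.1 hy
    rw [hin]
    simp [cpy]
  · have h2 := card_dif_le thr g b hthr (cpy C) N
    have h3 : ((2 * ⌊((Nat.cast ∘ f) N : ℝ) / 2⌋₊ : ℕ) : ℝ) ≤ f N := d_le (Nat.cast_nonneg _)
    have h4 : 2 * ⌊((Nat.cast ∘ f) N : ℝ) / 2⌋₊ ≤ f N := by exact_mod_cast h3
    refine le_trans (le_of_eq ?_) (h2.trans h4)
    congr 1
    unfold dif
    refine Finset.filter_congr fun i _ => ?_
    exact bne_iff_ne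

/-- the three promise classes -/
def spc (e : ℕ) : Spec := if e = 0 then bppS else if e = 1 then rpS else zppS

theorem spc_neg (e : ℕ) : ∀ N, 0 < N → ¬ (spc e).Ψ 0 N N := by
  intro N hN
  unfold spc
  split_ifs
  · simp [bppS]
  · simp [rpS]
  · simp [zppS]

/-- **Every oracle has complete sets for `BPP`, `RP` and `ZPP` after the addition of a sparse
oracle.** -/
theorem prob (X : Oracle) (f : ℕ → ℕ) (hf : Tendsto f atTop atTop) :
    ∃ S : Oracle, Few f S ∧ HasComplete (IsBPP (join X S)) (join X S) ∧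
      HasComplete (IsRP (join X S)) (join X S) ∧ HasComplete (IsZPP (join X S)) (join X S) := by
  obtain ⟨A, S, hm, h0, hS, hsys⟩ := sparse2 (fun e => LamS (spc e))
    (fun e => lamS_local (spc e)) X f hf
  have hfp := mix_isFP2 hm h0
  have hcls : ∀ (s : Spec) (L : Set (List Bool)), Cls s A L ↔ Cls s (join X S) L := by
    intro s L
    unfold Cls
    simp only [hfp]
  have key : ∀ e : ℕ, HasComplete (Cls (spc e) (join X S)) (join X S) := by
    intro e
    obtain ⟨q₀, q₁, p, T, hz⟩ := exists_z (cls_empty (spc e) (spc_neg e) A)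
    obtain ⟨P, hP⟩ := hsys.2 e ⟨_, (hz 0).1⟩
    obtain ⟨C, hC, hall⟩ := complete_cls hP
    refine ⟨C, (hcls _ _).1 hC, fun L hL => ?_⟩
    obtain ⟨F, hF, h2⟩ := hall L ((hcls _ _).2 hL)
    exact ⟨F, (hfp F).1 hF, h2⟩
  have k0 := key 0
  have k1 := key 1
  have k2 := key 2
  have e0 : spc 0 = bppS := rfl
  have e1 : spc 1 = rpS := rfl
  have e2 : spc 2 = zppS := rfl
  rw [e0] at k0
  rw [e1] at k1
  rw [e2] at k2
  refine ⟨S, hS, ?_, ?_, ?_⟩
  · obtain ⟨C, hC, hall⟩ := k0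
    exact ⟨C, bpp_iff.2 hC, fun L hL => hall L (bpp_iff.1 hL)⟩
  · obtain ⟨C, hC, hall⟩ := k1
    exact ⟨C, rp_iff.2 hC, fun L hL => hall L (rp_iff.1 hL)⟩
  · obtain ⟨C, hC, hall⟩ := k2
    exact ⟨C, zpp_iff.2 hC, fun L hL => hall L (zpp_iff.1 hL)⟩

end Pool.Agent.J4H65.CP
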