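import Pool.Agent.J4H65.CP.Cnt
import Pool.Agent.J4H65.CP.PDefs
import Pool.Agent.H620R2.GaugeR.R1

/-!
# Complete sets for promise classes from `p`-optimal proof systems
-/

set_option autoImplicit false

namespace Pool.Agent.J4H65.CP

open Pool.Agent.NPC Pool.Agent.H620R2.Gauge Pool.Agent.H620R2.Gauge.CC Pool.Agent.H660R2.NX
  Pool.Agent.J4H65.OP Pool.Agent.J4H65.OF

theorem ustep_len (s : List Bool × List Bool × Bool) :
    (NPC.ustep s).1.length + (NPC.ustep s).2.1.length ≤ s.1.length + s.2.1.length := by
  obtain ⟨a, l, b⟩ := s
  unfold NPC.ustep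
  cases b with
  | true => simp
  | false =>
    match l with
    | [] => simp
    | true :: [] => simp
    | true :: c :: l' => simp; omega
    | false :: l' => simp

theorem unpair_fst_le (y : List Bool) : (unpair y).1.length ≤ y.length := by
  have h : ∀ (k : ℕ) (s : List Bool × List Bool × Bool),
      (NPC.ustep^[k] s).1.length + (NPC.ustep^[k] s).2.1.length ≤
        s.1.length + s.2.1.length := by
    intro k
    induction k with
    | zero => intro s; simp
    | succ k ih =>
      intro s
      rw [Function.iterate_succ_apply]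
      exact (ih _).trans (ustep_len s)
  have h1 := h y.length ([], y, false)
  unfold unpair
  simp only [List.length_nil, zero_add, List.length_reverse] at h1 ⊢
  omega

attribute [local irreducible] unpair

/-- the conditions for a promise class -/
structure Spec where
  Φ : ℕ → ℕ → ℕ → Prop
  Ψ : ℕ → ℕ → ℕ → Prop
  scΦ : ∀ k a b N, 0 < k → (Φ (k * a) (k * b) (k * N) ↔ Φ a b N)
  scΨ : ∀ k a b N, 0 < k → (Ψ (k * a) (k * b) (k * N) ↔ Ψ a b N)
  dΦ : ∀ N, 0 < N → Φ 0 N N

/-- the promise class -/
def Cls (s : Spec) (A : Oracle) (L : Set (List Bool)) : Prop :=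
  ∃ (V₀ V₁ : List Bool → List Bool) (p : Polynomial ℕ), IsFP A V₀ ∧ IsFP A V₁ ∧
    ∀ x : List Bool,
      s.Φ (cnt V₀ (p.eval x.length) x) (cnt V₁ (p.eval x.length) x) (2 ^ p.eval x.length) ∧
      (x ∈ L ↔
        s.Ψ (cnt V₀ (p.eval x.length) x) (cnt V₁ (p.eval x.length) x) (2 ^ p.eval x.length))

open Classical in
/-- the number of the accepted random strings in the simulation -/
noncomputable def cA (A : Oracle) (q : List Bool) (m c : ℕ) (x : List Bool) : ℕ :=
  ((Finset.univ : Finset (Fin m → Bool)).filter
    (fun r => acc A q (pairBits (List.ofFn r) x) c)).card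

/-- the parts of the clock string -/
def nn (z : List Bool) : ℕ := (xq (xl z)).length

def mm (z : List Bool) : ℕ := (xw (xl z)).length

def cc (z : List Bool) : ℕ := (xl (xl z)).length

/-- the programs in `z` keep the promise at the inputs of length `nn z` -/
def LamS (s : Spec) (A : Oracle) : Set (List Bool) :=
  {z | ∀ x : List Bool, x.length = nn z →
    s.Φ (cA A (side false z) (mm z) (cc z) x) (cA A (side true z) (mm z) (cc z) x) (2 ^ mm z)}

theorem cA_congr {A A' : Oracle} {q : List Bool} {m c : ℕ} {x : List Bool}
    (h : ∀ s : List Bool, s.length ≤ c → A' s = A s) : cA A' q m c x = cA A q m c x := by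
  unfold cA
  congr 1
  ext r
  simp only [Finset.mem_filter, acc_congr h]

theorem lamS_local (s : Spec) : IsLocal (LamS s) := by
  refine ⟨Polynomial.X, fun A A' z h => ?_⟩
  have h1 : ∀ s : List Bool, s.length ≤ cc z → A s = A' s := fun s hs => h s (by
    rw [Polynomial.eval_X]
    exact hs.trans ((xl_le _).trans (xl_le z)))
  unfold LamS
  simp only [Set.mem_ofPred_eq, cA_congr h1]

/-- the instance -/
def z4 (q₀ q₁ : List Bool) (n m c : ℕ) : List Bool :=
  pairBits q₀ (pairBits q₁ (pairBits (List.replicate n true)
    (pairBits (List.replicate m true) (List.replicate c true))))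

theorem xl_z4 (q₀ q₁ : List Bool) (n m c : ℕ) : xl (z4 q₀ q₁ n m c) =
    pairBits (List.replicate n true) (pairBits (List.replicate m true)
      (List.replicate c true)) := by
  unfold xl z4
  rw [unpair_pairBits, unpair_pairBits]

theorem nn_z4 (q₀ q₁ : List Bool) (n m c : ℕ) : nn (z4 q₀ q₁ n m c) = n := by
  unfold nn
  rw [xl_z4]
  unfold xq
  rw [unpair_pairBits, List.length_replicate]

theorem mm_z4 (q₀ q₁ : List Bool) (n m c : ℕ) : mm (z4 q₀ q₁ n m c) = m := by
  unfold mm
  rw [xl_z4]
  unfold xw
  rw [unpair_pairBits, unpair_pairBits, List.length_replicate]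

theorem cc_z4 (q₀ q₁ : List Bool) (n m c : ℕ) : cc (z4 q₀ q₁ n m c) = c := by
  unfold cc
  rw [xl_z4]
  unfold xl
  rw [unpair_pairBits, unpair_pairBits, List.length_replicate]

theorem side_false4 (q₀ q₁ : List Bool) (n m c : ℕ) : side false (z4 q₀ q₁ n m c) = q₀ := by
  unfold side xq z4
  rw [if_neg (by simp), unpair_pairBits]

theorem side_true4 (q₀ q₁ : List Bool) (n m c : ℕ) : side true (z4 q₀ q₁ n m c) = q₁ := by
  unfold side xw z4
  rw [if_pos rfl, unpair_pairBits, unpair_pairBits]

theorem mm_le (z : List Bool) : mm z ≤ z.length := by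
  unfold mm xw
  exact (unpair_fst_le _).trans ((unpair_snd_le _).trans (xl_le z))

/-! ### The verifier of the complete set -/

/-- the question to the simulation; the random string is cut -/
def pq (i : Bool) (p : List Bool × List Bool) : List Bool :=
  pairBits (side i p.2)
    (pairBits (pairBits ((unpair p.1).1.take (mm p.2)) (unpair (unpair p.1).2).2) (xl (xl p.2)))

/-- the decision -/
def pd (i : Bool) (p : List Bool × List Bool × List Bool) : List Bool :=
  if (unpair (unpair p.1).2).2.length = nn p.2.1 then
    (if p.2.2 = [true, true] then [true] else [])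
  else (if i = true then [true] else [])

theorem poly_pq (i : Bool) : NPC.Poly (pq i) := by
  unfold pq
  have h1 : NPC.Poly (fun p : List Bool × List Bool => unpair p.1) :=
    poly_unpair.comp (NPC.Poly.fst NPC.Poly.id)
  have h2 : NPC.Poly (fun p : List Bool × List Bool => xl p.2) :=
    poly_xl.comp (NPC.Poly.snd NPC.Poly.id)
  have h3 : UPoly (fun p : List Bool × List Bool => mm p.2) := by
    unfold mm
    exact UPoly.length (poly_xw.comp h2)
  exact poly_pairBits ((poly_side i).comp (NPC.Poly.snd NPC.Poly.id))
    (poly_pairBits (poly_pairBits (Pool.Agent.H620R2.Gauge.R1.poly_take (NPC.Poly.fst h1) h3)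
      (NPC.Poly.snd (poly_unpair.comp (NPC.Poly.snd h1)))) (poly_xl.comp h2))

theorem poly_pd (i : Bool) : NPC.Poly (pd i) := by
  unfold pd
  have h1 : NPC.Poly (fun p : List Bool × List Bool × List Bool => unpair p.1) :=
    poly_unpair.comp (NPC.Poly.fst NPC.Poly.id)
  have h2 : NPC.Poly (fun p : List Bool × List Bool × List Bool => nn p.2.1) := by
    unfold nn
    exact NPC.Poly.length (poly_xq.comp (poly_xl.comp (NPC.Poly.fst (NPC.Poly.snd NPC.Poly.id))))
  refine NPC.Poly.ite (Poly.dec_eq
    (NPC.Poly.length (NPC.Poly.snd (poly_unpair.comp (NPC.Poly.snd h1)))) h2)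
    (NPC.Poly.ite (Poly.dec_eq (NPC.Poly.snd (NPC.Poly.snd NPC.Poly.id))
      (NPC.Poly.const [true, true])) (NPC.Poly.const [true]) (NPC.Poly.const []))
    (NPC.Poly.const _)

/-- the verifier -/
def vp (A : Oracle) (P : List Bool → List Bool) (i : Bool) (v : List Bool) : List Bool :=
  pd i (v, P (unpair (unpair v).2).1, so A (pq i (v, P (unpair (unpair v).2).1)))

theorem isFP_vp {A : Oracle} {P : List Bool → List Bool} (hP : IsFP A P) (i : Bool) :
    IsFP A (vp A P i) := by
  have h1 : NPC.Poly (fun v : List Bool => (unpair (unpair v).2).1) :=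
    NPC.Poly.fst (poly_unpair.comp (NPC.Poly.snd poly_unpair))
  exact IsFP.seq (φ := pq i) (ψ := pd i) (hP.comp (IsFP.of_poly h1)) (isFP_so A) (poly_pq i)
    (poly_pd i)

theorem so_iff {A : Oracle} {q y s : List Bool} :
    so A (pairBits q (pairBits y s)) = [true, true] ↔ acc A q y s.length := by
  unfold so
  have e1 : xq (pairBits q (pairBits y s)) = q := by
    unfold xq
    rw [unpair_pairBits]
  have e2 : xw (pairBits q (pairBits y s)) = y := by
    unfold xw
    rw [unpair_pairBits, unpair_pairBits]
  have e3 : xl (pairBits q (pairBits y s)) = s := by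
    unfold xl
    rw [unpair_pairBits, unpair_pairBits]
  rw [e1, e2, e3]
  constructor
  · intro h
    refine ⟨(pairBits q (pairBits y s)).length + 2, ?_⟩
    · rcases hs : sim A q y s.length ((pairBits q (pairBits y s)).length + 2) [] with _ | z
      · rw [hs] at h
        simp at h
      · rw [hs] at h
        simpa using h
  · rintro ⟨m, hm⟩
    have key : ∀ (m k : ℕ) (a : List Bool), s.length + 2 ≤ k + a.length →
        sim A q y s.length m a = some [true] → sim A q y s.length k a = some [true] := by
      intro m
      induction m with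
      | zero => intro k a _ h; simp [OP.sim] at h
      | succ m ih =>
        intro k a hk h
        rcases k with _ | k
        · exfalso
          unfold OP.sim at h
          have h1 : sact q y s.length a = [] := by
            unfold sact
            rw [if_pos (by omega)]
          rw [h1] at h
          simp at h
        · unfold OP.sim at h ⊢
          rcases hs : sact q y s.length a with _ | ⟨b, r⟩
          · rw [hs] at h
            simp at h
          · rw [hs] at h
            cases b with
            | true => exact h
            | false =>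
              refine ih k _ ?_ h
              rw [List.length_append, List.length_singleton]
              omega
    have h2 := key m ((pairBits q (pairBits y s)).length + 2) [] (by
      rw [Pool.Agent.H620R2.Gauge.length_pairBits, Pool.Agent.H620R2.Gauge.length_pairBits]
      simp only [List.length_nil]
      omega) hm
    rw [h2]
    rfl

theorem vp_in {A : Oracle} {P : List Bool → List Bool} {i : Bool} {r y : List Bool}
    (h : (unpair y).2.length = nn (P (unpair y).1)) :
    vp A P i (pairBits r y) = [true] ↔ acc A (side i (P (unpair y).1))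
      (pairBits (r.take (mm (P (unpair y).1))) (unpair y).2) (cc (P (unpair y).1)) := by
  unfold vp pd pq
  simp only [unpair_pairBits]
  rw [if_pos h]
  unfold cc
  rw [← so_iff]
  split_ifs with h1
  · simp [h1]
  · simp [h1]

theorem vp_out {A : Oracle} {P : List Bool → List Bool} {i : Bool} {r y : List Bool}
    (h : (unpair y).2.length ≠ nn (P (unpair y).1)) :
    vp A P i (pairBits r y) = [true] ↔ i = true := by
  unfold vp pd pq
  simp only [unpair_pairBits]
  rw [if_neg h]
  split_ifs with h1
  · simp [h1]
  · simp [h1]

/-- the number of the accepted random strings -/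
theorem cnt_in {A : Oracle} {P : List Bool → List Bool} {i : Bool} {M : ℕ} {y : List Bool}
    (h : (unpair y).2.length = nn (P (unpair y).1)) (hM : mm (P (unpair y).1) ≤ M) :
    cnt (vp A P i) M y = 2 ^ (M - mm (P (unpair y).1)) *
      cA A (side i (P (unpair y).1)) (mm (P (unpair y).1)) (cc (P (unpair y).1))
        (unpair y).2 := by
  classical
  obtain ⟨j, rfl⟩ := Nat.exists_eq_add_of_le hM
  have h1 := card_take (mm (P (unpair y).1)) j (fun l => acc A (side i (P (unpair y).1))
      (pairBits l (unpair y).2) (cc (P (unpair y).1)))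
  rw [Nat.add_sub_cancel_left]
  unfold cnt cA
  simp only [vp_in h]
  convert h1 using 2

theorem cnt_out {A : Oracle} {P : List Bool → List Bool} {i : Bool} {M : ℕ} {y : List Bool}
    (h : (unpair y).2.length ≠ nn (P (unpair y).1)) :
    cnt (vp A P i) M y = if i = true then 2 ^ M else 0 := by
  unfold cnt
  simp only [vp_out h]
  split_ifs with h1
  · simp [h1]
  · simp [h1]

end Pool.Agent.J4H65.CP
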