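import Pool.Agent.J4H65.OF.Every

/-!
# Universal simulation, and the set of the pairs of programs which are disjoint up to a clock
-/

set_option autoImplicit false

namespace Pool.Agent.J4H65.CP

open Pool.Agent.NPC Pool.Agent.H620R2.Gauge Pool.Agent.H620R2.Gauge.CC Pool.Agent.H660R2.NX
  Pool.Agent.J4H65.OP Pool.Agent.J4H65.OF

attribute [local irreducible] unpair

/-- the program `q` accepts the string `y`, with the clock `t` -/
def acc (A : Oracle) (q y : List Bool) (t : ℕ) : Prop := ∃ m, sim A q y t m [] = some [true]

theorem acc_congr {A A' : Oracle} {q y : List Bool} {t : ℕ}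
    (h : ∀ s : List Bool, s.length ≤ t → A' s = A s) : acc A' q y t ↔ acc A q y t := by
  unfold acc
  simp only [sim_congr h]

/-- every algorithm is simulated -/
theorem exists_prog (M : Alg) : ∃ (q : List Bool) (Q : Polynomial ℕ),
    ∀ (A : Oracle) (V : List Bool → List Bool), (∀ y, M.out A y = some (V y)) →
      (∀ y t, acc A q y t → V y = [true]) ∧
      ∀ y t m, Q.eval y.length ≤ t → Q.eval y.length ≤ m → sim A q y t m [] = some (V y) := by
  obtain ⟨ec, pc, hec⟩ := U_complete M.poly
  have hec' : IsCode ec M.D pc := hec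
  obtain ⟨bb, hbb⟩ := M.next_length
  refine ⟨bits ec, M.p + bb + pc.comp (2 * Polynomial.X + 1 + M.p), fun A V hV => ⟨?_, ?_⟩⟩
  · rintro y t ⟨m, hm⟩
    exact (eq_of_run (run_of_sim hec' m [] hm) (hV y)).symm
  · intro y t m h1 h2
    have hTe : (M.p + bb + pc.comp (2 * Polynomial.X + 1 + M.p)).eval y.length =
        M.p.eval y.length + bb.eval y.length +
          pc.eval (2 * y.length + 1 + M.p.eval y.length) := by
      simp [Polynomial.eval_comp]
    rw [hTe] at h1 h2
    have h4 : sim A (bits ec) y t (M.p.eval y.length) [] = some (V y) :=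
      sim_of_run hec' hbb (by omega) (by omega) (by omega) _ [] (by simp) (hV y)
    exact sim_mono _ m [] (by omega) h4

/-- the program number 0 or 1 of the list -/
def side (i : Bool) (z : List Bool) : List Bool := if i = true then xw z else xq z

theorem poly_side (i : Bool) : NPC.Poly (side i) := by
  cases i with
  | false => exact poly_xq.congr fun z => by simp [side]
  | true => exact poly_xw.congr fun z => by simp [side]

/-- The two programs in `z` do not accept the same string, with the clock in `z`. -/
def Lam (A : Oracle) : Set (List Bool) :=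
  {z | ∀ x w₀ w₁ : List Bool, x.length ≤ (xl z).length → w₀.length ≤ (xl z).length →
    w₁.length ≤ (xl z).length →
      ¬ (acc A (side false z) (pairBits w₀ x) (xl z).length ∧
        acc A (side true z) (pairBits w₁ x) (xl z).length)}

theorem lam_local : IsLocal Lam := by
  refine ⟨Polynomial.X, fun A A' z h => ?_⟩
  have h1 : ∀ s : List Bool, s.length ≤ (xl z).length → A s = A' s := fun s hs => h s (by
    rw [Polynomial.eval_X]
    exact hs.trans (xl_le z))
  unfold Lam
  simp only [Set.mem_ofPred_eq, acc_congr h1]

theorem lam_nonempty (A : Oracle) : (Lam A).Nonempty := by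
  refine ⟨pairBits [] (pairBits [] []), fun x w₀ w₁ _ _ _ h => ?_⟩
  have e : (xl (pairBits [] (pairBits [] []))).length = 0 := by
    unfold xl
    rw [unpair_pairBits, unpair_pairBits]
    rfl
  obtain ⟨⟨m, hm⟩, -⟩ := h
  have h1 := sim_length m [] hm
  rw [e] at h1
  simp at h1

/-- the instance -/
def zz (q₀ q₁ : List Bool) (t : ℕ) : List Bool := pairBits q₀ (pairBits q₁ (List.replicate t true))

theorem xl_zz (q₀ q₁ : List Bool) (t : ℕ) : (xl (zz q₀ q₁ t)).length = t := by
  unfold xl zz
  rw [unpair_pairBits, unpair_pairBits, List.length_replicate]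

theorem side_false (q₀ q₁ : List Bool) (t : ℕ) : side false (zz q₀ q₁ t) = q₀ := by
  unfold side xq zz
  rw [if_neg (by simp), unpair_pairBits]

theorem side_true (q₀ q₁ : List Bool) (t : ℕ) : side true (zz q₀ q₁ t) = q₁ := by
  unfold side xw zz
  rw [if_pos rfl, unpair_pairBits, unpair_pairBits]

theorem le_zz (q₀ q₁ : List Bool) (t : ℕ) : t ≤ (zz q₀ q₁ t).length := by
  unfold zz
  rw [Pool.Agent.H620R2.Gauge.length_pairBits, Pool.Agent.H620R2.Gauge.length_pairBits,
    List.length_replicate]
  omega

end Pool.Agent.J4H65.CP
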